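import Pool.Agent.H75C.HY.TRG
import Pool.Agent.H75C.HY.Game

/-!
# The game for transitive frames: evaluation and needed keys (piece D2)
-/

set_option autoImplicit false
set_option synthInstance.maxSize 4000

namespace Pool.Agent.Helper32.TR

open Pool.Agent.NPC Pool.Agent.H75C.HY Pool.Agent.H75C.HY.TR

variable {𝔅 : Base}

/-- The evaluation of a word in an arbitrary environment. -/
def evG (c : Cl) (mc : Fls) (u : List Tok) (B : List ℕ) (e : List (ℕ × ℕ)) (v : ℕ) (b : Bool) : Gs :=
  ((none, 4), ([], []), cf0, (c, mc, u, B, e, v, b))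

section

variable {E : ℕ → List Bool → Bool} {K : ℕ → ℕ} {argX : List Tok → ℕ → List Tok}
  {wf : List Tok → Bool} {w : List Tok} {W : ℕ}

theorem tstep_of_fin (s : Gs) (r : Bool) (h : s.1.1 = some r) (M M' : List Bool) :
    tstep E K argX wf w s M M' = s := by
  unfold tstep
  rw [if_pos (by rw [h]; rfl)]

theorem gv_fin' (r : Bool) : ∀ (n : ℕ), (GV (tstep E K argX wf w) tout W n (fin r) ↔ r = true) := by
  intro n
  induction n with
  | zero =>
    rw [GV, tout]
    simp [fin]
  | succ n ih =>
    rw [GV]
    constructor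
    · rintro ⟨M, hM, h1⟩
      have h2 := h1 (List.replicate W false) (by simp)
      rw [tstep_of_fin (fin r) r rfl] at h2
      exact ih.1 h2
    · intro h1
      refine ⟨List.replicate W false, by simp, fun M' _ => ?_⟩
      rw [tstep_of_fin (fin r) r rfl]
      exact ih.2 h1

theorem tstep_evG (c : Cl) (mc : Fls) (t : Tok) (tl : List Tok) (B : List ℕ) (e : List (ℕ × ℕ))
    (v : ℕ) (b : Bool) (M M' : List Bool) :
    tstep E K argX wf w (evG c mc (t :: tl) B e v b) M M' =
      ph4 E K argX w c mc t tl B e v b M M' := rfl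

theorem tstep_ndS (J : List Key) (t : Tok) (tl : List Tok) (B : List ℕ) (M M' : List Bool) :
    tstep E K argX wf w (ndS J (t :: tl, B)) M M' = ph5 K argX J t tl B M' := rfl

theorem not_gv_zero (s : Gs) (h : s.1.1 = none) : ¬ GV (tstep E K argX wf w) tout W 0 s := by
  rw [GV, tout, h]
  simp

/-- If the moves do not matter. -/
theorem gv_const' {n : ℕ} {s s' : Gs}
    (h : ∀ M M' : List Bool, M.length = W → tstep E K argX wf w s M M' = s') :
    GV (tstep E K argX wf w) tout W (n + 1) s ↔ GV (tstep E K argX wf w) tout W n s' := by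
  rw [GV]
  constructor
  · rintro ⟨M, hM, h1⟩
    have h2 := h1 (List.replicate W false) (by simp)
    rwa [h M _ hM] at h2
  · intro h1
    refine ⟨List.replicate W false, by simp, fun M' _ => ?_⟩
    rw [h _ _ (by simp)]
    exact h1

/-- A game that is over after the next round. -/
theorem gv_one {n : ℕ} {s : Gs} {r : Bool}
    (h : ∀ M M' : List Bool, M.length = W → tstep E K argX wf w s M M' = fin r) :
    GV (tstep E K argX wf w) tout W (n + 1) s ↔ r = true := by
  rw [gv_const' h, gv_fin']

/-- The value of the subformula in a general environment. -/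
noncomputable def vl' (c : Cl) (mc : Fls) (ψ : Form 𝔅) (B : List ℕ) (e : List (ℕ × ℕ)) (v : ℕ) :
    Bool := cec c (fm mc) ψ B e v

theorem vl_prop (c : Cl) (mc : Fls) (i : ℕ) (B : List ℕ) (e : List (ℕ × ℕ)) (v : ℕ) :
    vl' (𝔅 := 𝔅) c mc (.prop i) B e v = decide ((i, v) ∈ c.2.1.2.1) := by
  rw [Bool.eq_iff_iff, decide_eq_true_eq]
  exact @decide_eq_true_iff _ (Classical.propDecidable _)

theorem vl_nom (c : Cl) (mc : Fls) (i : ℕ) (B : List ℕ) (e : List (ℕ × ℕ)) (v : ℕ) :
    vl' (𝔅 := 𝔅) c mc (.nom i) B e v = decide (v = lk c.2.1.2.2 (N c) i) := by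
  rw [Bool.eq_iff_iff, decide_eq_true_eq]
  exact @decide_eq_true_iff _ (Classical.propDecidable _)

theorem vl_var (c : Cl) (mc : Fls) (i : ℕ) (B : List ℕ) (e : List (ℕ × ℕ)) (v : ℕ) :
    vl' (𝔅 := 𝔅) c mc (.var i) B e v = decide (v = lk e (N c) i) := by
  rw [Bool.eq_iff_iff, decide_eq_true_eq]
  exact @decide_eq_true_iff _ (Classical.propDecidable _)

theorem vl_app (c : Cl) (mc : Fls) (b : 𝔅.B) (φ : Fin (𝔅.ar b) → Form 𝔅) (B : List ℕ)
    (e : List (ℕ × ℕ)) (v : ℕ) :
    vl' c mc (.app b φ) B e v = 𝔅.ev b fun i => vl' c mc (φ i) B e v := rfl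

open Classical in
theorem ce_dia (K : Model) (C : Set K.W) (r : Prop) (m : Form 𝔅 → List ℕ → Bool → Prop)
    (φ : Form 𝔅) (B : List ℕ) (g : ℕ → K.W) (w : K.W) :
    ce K C r m (.dia φ) B g w = true ↔
      (m φ B true ∨ (r ∧ ∃ v ∈ C, ce K C r m φ B g v = true)) := by
  rw [ce, decide_eq_true_eq]

open Classical in
theorem ce_box (K : Model) (C : Set K.W) (r : Prop) (m : Form 𝔅 → List ℕ → Bool → Prop)
    (φ : Form 𝔅) (B : List ℕ) (g : ℕ → K.W) (w : K.W) :
    ce K C r m (.box φ) B g w = true ↔
      (¬ m φ B false ∧ (r → ∀ v ∈ C, ce K C r m φ B g v = true)) := by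
  rw [ce, decide_eq_true_eq]

theorem ce_bind (K : Model) (C : Set K.W) (r : Prop) (m : Form 𝔅 → List ℕ → Bool → Prop)
    (x : ℕ) (φ : Form 𝔅) (B : List ℕ) (g : ℕ → K.W) (w : K.W) :
    ce K C r m (.bind x φ) B g w = ce K C r m φ (x :: B) (Function.update g x w) w := by
  rw [ce]

theorem vl_dia (c : Cl) (mc : Fls) (φ : Form 𝔅) (B : List ℕ) (e : List (ℕ × ℕ)) (v : ℕ) :
    vl' c mc (.dia φ) B e v = true ↔
      (((pr φ, B), true) ∈ mc ∨ (c.1 = true ∧ ∃ u < N c, vl' c mc φ B e u = true)) :=
  ce_dia (KD c.2.1) (CD c.2.1) (c.1 = true) (fm mc) φ B (lk e (N c)) v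

theorem vl_box (c : Cl) (mc : Fls) (φ : Form 𝔅) (B : List ℕ) (e : List (ℕ × ℕ)) (v : ℕ) :
    vl' c mc (.box φ) B e v = true ↔
      (¬ ((pr φ, B), false) ∈ mc ∧ (c.1 = true → ∀ u < N c, vl' c mc φ B e u = true)) :=
  ce_box (KD c.2.1) (CD c.2.1) (c.1 = true) (fm mc) φ B (lk e (N c)) v

theorem vl_bind (c : Cl) (mc : Fls) (x : ℕ) (φ : Form 𝔅) (B : List ℕ) (e : List (ℕ × ℕ)) (v : ℕ) :
    vl' c mc (.bind x φ) B e v = vl' c mc φ (x :: B) ((x, v) :: e) v := by
  unfold vl' cec
  rw [lk_cons]
  exact ce_bind (KD c.2.1) (CD c.2.1) (c.1 = true) (fm mc) x φ B (lk e (N c)) v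

/-- A move of the first player that names a state. -/
theorem gv_ex' {n : ℕ} {s : Gs} {N : ℕ} (hN : N ≤ W) {f : ℕ → Gs}
    (h : ∀ M M' : List Bool, M.length = W →
      tstep E K argX wf w s M M' = if valB M < N then f (valB M) else fin false) :
    GV (tstep E K argX wf w) tout W (n + 1) s ↔
      ∃ u < N, GV (tstep E K argX wf w) tout W n (f u) := by
  rw [GV]
  constructor
  · rintro ⟨M, hM, h1⟩
    have h2 := h1 (List.replicate W false) (by simp)
    rw [h _ _ hM] at h2
    by_cases h3 : valB M < N
    · rw [if_pos h3] at h2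
      exact ⟨_, h3, h2⟩
    · rw [if_neg h3, gv_fin'] at h2
      cases h2
  · rintro ⟨u, hu, h1⟩
    obtain ⟨M, hM, hM'⟩ := exists_valB (hu.trans_le hN)
    refine ⟨M, hM, fun M' _ => ?_⟩
    rw [h _ _ hM, hM', if_pos hu]
    exact h1

/-- A move of the second player that names a state. -/
theorem gv_all' {n : ℕ} {s : Gs} {N : ℕ} (hN : N ≤ W) {f : ℕ → Gs}
    (h : ∀ M M' : List Bool, M.length = W →
      tstep E K argX wf w s M M' = if valB M' < N then f (valB M') else fin true) :
    GV (tstep E K argX wf w) tout W (n + 1) s ↔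
      ∀ u < N, GV (tstep E K argX wf w) tout W n (f u) := by
  rw [GV]
  constructor
  · rintro ⟨M, hM, h1⟩ u hu
    obtain ⟨M', hM', hM''⟩ := exists_valB (hu.trans_le hN)
    have h2 := h1 M' hM'
    rw [h _ _ hM, hM'', if_pos hu] at h2
    exact h2
  · intro h1
    refine ⟨List.replicate W false, by simp, fun M' _ => ?_⟩
    rw [h _ _ (by simp)]
    by_cases h3 : valB M' < N
    · rw [if_pos h3]
      exact h1 _ h3
    · rw [if_neg h3, gv_fin']

/-- Atoms and other positions that are decided in one round. -/
theorem both {s : Gs} {P Q : Prop} {l : ℕ} (hs : s.1.1 = none) (hl : 0 < l)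
    (h : ∀ n, GV (tstep E K argX wf w) tout W (n + 1) s ↔ P) (n : ℕ) :
    (GV (tstep E K argX wf w) tout W n s → P) ∧
      (l ≤ n → Q → P → GV (tstep E K argX wf w) tout W n s) := by
  cases n with
  | zero => exact ⟨fun h1 => absurd h1 (not_gv_zero s hs), fun h1 => by omega⟩
  | succ n => exact ⟨(h n).1, fun _ _ => (h n).2⟩

theorem length_arg (b : 𝔅.B) (φ : Fin (𝔅.ar b) → Form 𝔅) (i : Fin (𝔅.ar b)) :
    (pr (φ i)).length < (pr (.app b φ)).length := by
  rw [pr_app, List.length_cons, List.length_append, List.length_flatten, List.map_ofFn]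
  have h1 : (pr (φ i)).length ≤ (List.ofFn (List.length ∘ fun i => pr (φ i) ++
      [((4, (i : ℕ)) : Tok)])).sum := by
    rw [List.sum_ofFn]
    refine le_trans ?_ (Finset.single_le_sum (f := fun i => (List.length ∘ fun i => pr (φ i) ++
      [((4, (i : ℕ)) : Tok)]) i) (fun _ _ => Nat.zero_le _) (Finset.mem_univ i))
    simp
  omega

theorem mem_arg (b : 𝔅.B) (φ : Fin (𝔅.ar b) → Form 𝔅) (i : Fin (𝔅.ar b)) (t : Tok)
    (ht : t ∈ pr (φ i)) : t ∈ pr (.app b φ) := by
  rw [pr_app]
  refine List.mem_cons_of_mem _ (List.mem_append_left _ ?_)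
  rw [List.mem_flatten]
  exact ⟨pr (φ i) ++ [((4, (i : ℕ)) : Tok)], by rw [List.mem_ofFn]; exact ⟨i, rfl⟩,
    List.mem_append_left _ ht⟩

theorem ph4_app (c : Cl) (mc : Fls) (a : ℕ) (tl : List Tok) (B : List ℕ)
    (e : List (ℕ × ℕ)) (v : ℕ) (b : Bool) (M M' : List Bool) :
    ph4 E K argX w c mc (3, a) tl B e v b M M' =
      if E a M = b then
        if valB M' < K a then evG c mc (argX ((3, a) :: tl) (valB M')) B e v
          (M.getD (valB M') false)
        else fin true
      else fin false := by
  simp [ph4, evG]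

theorem ph4_dia (c : Cl) (mc : Fls) (u : List Tok) (B : List ℕ)
    (e : List (ℕ × ℕ)) (v : ℕ) (b : Bool) (M M' : List Bool) :
    ph4 E K argX w c mc (6, 0) (u ++ [(5, 1)]) B e v b M M' =
      if ((u, B), true) ∈ mc then fin (decide (true = b))
      else if c.1 = false then fin (decide (false = b))
      else if true = b then
        if valB M < N c then evG c mc u B e (valB M) b else fin false
      else if valB M' < N c then evG c mc u B e (valB M') b else fin true := by
  simp [ph4, evG]

theorem ph4_box (c : Cl) (mc : Fls) (u : List Tok) (B : List ℕ)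
    (e : List (ℕ × ℕ)) (v : ℕ) (b : Bool) (M M' : List Bool) :
    ph4 E K argX w c mc (7, 0) (u ++ [(5, 1)]) B e v b M M' =
      if ((u, B), false) ∈ mc then fin (decide (false = b))
      else if c.1 = false then fin (decide (true = b))
      else if false = b then
        if valB M < N c then evG c mc u B e (valB M) b else fin false
      else if valB M' < N c then evG c mc u B e (valB M') b else fin true := by
  simp [ph4, evG]

theorem ph4_bind (c : Cl) (mc : Fls) (x : ℕ) (tl : List Tok) (B : List ℕ)
    (e : List (ℕ × ℕ)) (v : ℕ) (b : Bool) (M M' : List Bool) :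
    ph4 E K argX w c mc (8, x) tl B e v b M M' =
      if ((8, x) : Tok) ∈ w then evG c mc tl (x :: B) ((x, min v M.length) :: e) v b
      else fin false := by
  simp [ph4, evG]

/-- **The evaluation game.** -/
theorem ev_main (hF : FS 𝔅 E K argX wf) (har : ∀ b : 𝔅.B, 𝔅.ar b < W) (c : Cl) (mc : Fls)
    (hc : N c ≤ W) :
    ∀ (ψ : Form 𝔅), NoAt ψ → ∀ (B : List ℕ) (e : List (ℕ × ℕ)) (v : ℕ) (b : Bool) (n : ℕ),
      v < N c →
      (GV (tstep E K argX wf w) tout W n (evG c mc (pr ψ) B e v b) → vl' c mc ψ B e v = b) ∧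
      ((pr ψ).length ≤ n → (∀ t ∈ pr ψ, t ∈ w) → vl' c mc ψ B e v = b →
        GV (tstep E K argX wf w) tout W n (evG c mc (pr ψ) B e v b)) := by
  intro ψ
  induction ψ with
  | prop i =>
    intro _ B e v b n hv
    refine both rfl (by simp [pr]) (fun n => ?_) n
    rw [gv_one (r := decide (decide ((i, v) ∈ c.2.1.2.1) = b))
      (fun M M' _ => by simp [pr, tstep_evG, ph4]), decide_eq_true_eq, vl_prop]
  | nom i =>
    intro _ B e v b n hv
    refine both rfl (by simp [pr]) (fun n => ?_) n
    rw [gv_one (r := decide (decide (v = lk c.2.1.2.2 (N c) i) = b))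
      (fun M M' _ => by simp [pr, tstep_evG, ph4]), decide_eq_true_eq, vl_nom]
  | var x =>
    intro _ B e v b n hv
    refine both rfl (by simp [pr]) (fun n => ?_) n
    rw [gv_one (r := decide (decide (v = lk e (N c) x) = b))
      (fun M M' _ => by simp [pr, tstep_evG, ph4]), decide_eq_true_eq, vl_var]
  | app a φ ih =>
    intro hφ B e v b n hv
    set tl := (List.ofFn (fun i => pr (φ i) ++ [((4, (i : ℕ)) : Tok)])).flatten ++ [(5, 0)] with htl
    have hpr : pr (.app a φ) = (3, 𝔅.idx a) :: tl := by rw [pr_app]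
    have hstep : ∀ M M', tstep E K argX wf w (evG c mc (pr (.app a φ)) B e v b) M M' =
        if E (𝔅.idx a) M = b then
          if valB M' < K (𝔅.idx a) then
            evG c mc (argX (pr (.app a φ)) (valB M')) B e v (M.getD (valB M') false)
          else fin true
        else fin false := by
      intro M M'
      rw [hpr, tstep_evG, ph4_app]
    cases n with
    | zero =>
      refine ⟨fun h1 => absurd h1 (not_gv_zero _ rfl), fun h1 => ?_⟩
      rw [hpr] at h1
      simp at h1
    | succ n =>
      refine ⟨?_, ?_⟩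
      · intro h0
        rw [GV] at h0
        obtain ⟨M, hM, h1⟩ := h0
        have hEM : E (𝔅.idx a) M = b := by
          by_contra h2
          have h3 := h1 (List.replicate W false) (by simp)
          rw [hstep, if_neg h2, gv_fin'] at h3
          cases h3
        rw [vl_app, ← hEM, (hF.ek a).2 M]
        congr 1
        funext i
        obtain ⟨M', hM', hi⟩ := exists_valB (i.2.trans (har a))
        have h3 := h1 M' hM'
        rw [hstep, if_pos hEM, if_pos (by rw [hi, (hF.ek a).1]; exact i.2), hi, hF.ax a φ i] at h3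
        exact (ih i (hφ i) B e v _ n hv).1 h3
      · intro hn hw h1
        rw [GV]
        refine ⟨List.ofFn (fun i : Fin W => if h : (i : ℕ) < 𝔅.ar a then
          vl' c mc (φ ⟨i, h⟩) B e v else false), by simp, fun M' hM' => ?_⟩
        set M := List.ofFn (fun i : Fin W => if h : (i : ℕ) < 𝔅.ar a then
          vl' c mc (φ ⟨i, h⟩) B e v else false) with hM
        have hget : ∀ i : Fin (𝔅.ar a), M.getD (i : ℕ) false = vl' c mc (φ i) B e v := by
          intro i
          have hi := i.2.trans (har a)
          rw [hM, List.getD_eq_getElem?_getD, List.getElem?_ofFn]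
          simp [hi]
        have hEM : E (𝔅.idx a) M = b := by
          rw [(hF.ek a).2 M, ← h1, vl_app]
          congr 1
          funext i
          exact hget i
        rw [hstep, if_pos hEM]
        by_cases h3 : valB M' < K (𝔅.idx a)
        · rw [if_pos h3]
          have h4 : valB M' < 𝔅.ar a := by rw [← (hF.ek a).1]; exact h3
          have h5 : argX (pr (.app a φ)) (valB M') = pr (φ ⟨valB M', h4⟩) := hF.ax a φ ⟨valB M', h4⟩
          rw [h5]
          exact (ih ⟨valB M', h4⟩ (hφ _) B e v _ n hv).2
            (by have := length_arg a φ ⟨valB M', h4⟩; omega)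
            (fun t ht => hw t (mem_arg a φ _ t ht)) (hget ⟨valB M', h4⟩).symm
        · rw [if_neg h3, gv_fin']
  | dia φ ih =>
    intro hφ B e v b n hv
    have hpr : pr (.dia φ) = (6, 0) :: (pr φ ++ [(5, 1)]) := by simp [pr]
    have hlen : (pr (.dia φ)).length = (pr φ).length + 2 := by simp [pr]
    have hmem : ∀ t ∈ pr φ, t ∈ pr (.dia φ) := by
      intro t ht
      rw [hpr]
      exact List.mem_cons_of_mem _ (List.mem_append_left _ ht)
    have hstep : ∀ M M', tstep E K argX wf w (evG c mc (pr (.dia φ)) B e v b) M M' =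
        if ((pr φ, B), true) ∈ mc then fin (decide (true = b))
        else if c.1 = false then fin (decide (false = b))
        else if true = b then
          if valB M < N c then evG c mc (pr φ) B e (valB M) b else fin false
        else if valB M' < N c then evG c mc (pr φ) B e (valB M') b else fin true := by
      intro M M'
      rw [hpr, tstep_evG, ph4_dia]
    have hvl := vl_dia c mc φ B e v
    by_cases h1 : ((pr φ, B), true) ∈ mc
    · refine both rfl (by rw [hlen]; omega) (fun n => ?_) n
      rw [gv_one (r := decide (true = b)) (fun M M' _ => by rw [hstep, if_pos h1]),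
        decide_eq_true_eq, hvl.2 (Or.inl h1)]
    by_cases h2 : c.1 = false
    · refine both rfl (by rw [hlen]; omega) (fun n => ?_) n
      have h3 : vl' c mc (.dia φ) B e v = false := by
        rw [← Bool.not_eq_true, hvl]
        rintro (h4 | h4)
        · exact h1 h4
        · rw [h2] at h4
          cases h4.1
      rw [gv_one (r := decide (false = b)) (fun M M' _ => by rw [hstep, if_neg h1, if_pos h2]),
        decide_eq_true_eq, h3]
    have h2' : c.1 = true := by rw [← Bool.not_eq_false]; exact h2
    cases n with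
    | zero => exact ⟨fun h3 => absurd h3 (not_gv_zero _ rfl), fun h3 => by omega⟩
    | succ n =>
      cases b with
      | true =>
        rw [gv_ex' hc (f := fun u => evG c mc (pr φ) B e u true)
          (fun M M' _ => by rw [hstep, if_neg h1, if_neg h2, if_pos rfl]), hvl]
        refine ⟨?_, ?_⟩
        · rintro ⟨u, hu, h3⟩
          exact Or.inr ⟨h2', u, hu, (ih hφ B e u true n hu).1 h3⟩
        · rintro hn hw (h3 | ⟨-, u, hu, h3⟩)
          · exact absurd h3 h1
          · exact ⟨u, hu, (ih hφ B e u true n hu).2 (by omega) (fun t ht => hw t (hmem t ht)) h3⟩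
      | false =>
        rw [gv_all' hc (f := fun u => evG c mc (pr φ) B e u false)
          (fun M M' _ => by rw [hstep, if_neg h1, if_neg h2, if_neg (by simp)]),
          ← Bool.not_eq_true, hvl]
        refine ⟨?_, ?_⟩
        · rintro h3 (h4 | ⟨-, u, hu, h4⟩)
          · exact h1 h4
          · rw [(ih hφ B e u false n hu).1 (h3 u hu)] at h4
            cases h4
        · intro hn hw h3 u hu
          refine (ih hφ B e u false n hu).2 (by omega) (fun t ht => hw t (hmem t ht)) ?_
          rw [← Bool.not_eq_true]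
          exact fun h4 => h3 (Or.inr ⟨h2', u, hu, h4⟩)
  | box φ ih =>
    intro hφ B e v b n hv
    have hpr : pr (.box φ) = (7, 0) :: (pr φ ++ [(5, 1)]) := by simp [pr]
    have hlen : (pr (.box φ)).length = (pr φ).length + 2 := by simp [pr]
    have hmem : ∀ t ∈ pr φ, t ∈ pr (.box φ) := by
      intro t ht
      rw [hpr]
      exact List.mem_cons_of_mem _ (List.mem_append_left _ ht)
    have hstep : ∀ M M', tstep E K argX wf w (evG c mc (pr (.box φ)) B e v b) M M' =
        if ((pr φ, B), false) ∈ mc then fin (decide (false = b))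
        else if c.1 = false then fin (decide (true = b))
        else if false = b then
          if valB M < N c then evG c mc (pr φ) B e (valB M) b else fin false
        else if valB M' < N c then evG c mc (pr φ) B e (valB M') b else fin true := by
      intro M M'
      rw [hpr, tstep_evG, ph4_box]
    have hvl := vl_box c mc φ B e v
    by_cases h1 : ((pr φ, B), false) ∈ mc
    · refine both rfl (by rw [hlen]; omega) (fun n => ?_) n
      have h3 : vl' c mc (.box φ) B e v = false := by
        rw [← Bool.not_eq_true, hvl]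
        exact fun h4 => h4.1 h1
      rw [gv_one (r := decide (false = b)) (fun M M' _ => by rw [hstep, if_pos h1]),
        decide_eq_true_eq, h3]
    by_cases h2 : c.1 = false
    · refine both rfl (by rw [hlen]; omega) (fun n => ?_) n
      have h3 : vl' c mc (.box φ) B e v = true :=
        hvl.2 ⟨h1, fun h4 => by rw [h2] at h4; cases h4⟩
      rw [gv_one (r := decide (true = b)) (fun M M' _ => by rw [hstep, if_neg h1, if_pos h2]),
        decide_eq_true_eq, h3]
    have h2' : c.1 = true := by rw [← Bool.not_eq_false]; exact h2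
    cases n with
    | zero => exact ⟨fun h3 => absurd h3 (not_gv_zero _ rfl), fun h3 => by omega⟩
    | succ n =>
      cases b with
      | true =>
        rw [gv_all' hc (f := fun u => evG c mc (pr φ) B e u true)
          (fun M M' _ => by rw [hstep, if_neg h1, if_neg h2, if_neg (by simp)]), hvl]
        refine ⟨?_, ?_⟩
        · intro h3
          exact ⟨h1, fun _ u hu => (ih hφ B e u true n hu).1 (h3 u hu)⟩
        · rintro hn hw ⟨-, h3⟩ u hu
          exact (ih hφ B e u true n hu).2 (by omega) (fun t ht => hw t (hmem t ht)) (h3 h2' u hu)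
      | false =>
        rw [gv_ex' hc (f := fun u => evG c mc (pr φ) B e u false)
          (fun M M' _ => by rw [hstep, if_neg h1, if_neg h2, if_pos rfl]),
          ← Bool.not_eq_true, hvl]
        refine ⟨?_, ?_⟩
        · rintro ⟨u, hu, h3⟩ ⟨-, h4⟩
          have h5 := (ih hφ B e u false n hu).1 h3
          rw [h4 h2' u hu] at h5
          cases h5
        · intro hn hw h3
          by_contra h4
          refine h3 ⟨h1, fun _ u hu => ?_⟩
          rw [← Bool.not_eq_false]
          exact fun h5 => h4 ⟨u, hu, (ih hφ B e u false n hu).2 (by omega)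
            (fun t ht => hw t (hmem t ht)) h5⟩
  | bind x φ ih =>
    intro hφ B e v b n hv
    have hpr : pr (.bind x φ) = (8, x) :: pr φ := by simp [pr]
    have hlen : (pr (.bind x φ)).length = (pr φ).length + 1 := by simp [pr]
    cases n with
    | zero => exact ⟨fun h3 => absurd h3 (not_gv_zero _ rfl), fun h3 => by omega⟩
    | succ n =>
      by_cases hx : ((8, x) : Tok) ∈ w
      · rw [gv_const' (s' := evG c mc (pr φ) (x :: B) ((x, v) :: e) v b)
          (fun M M' hM => by
            have h1 : min v M.length = v := by rw [hM]; exact min_eq_left (hv.le.trans hc)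
            rw [hpr, tstep_evG, ph4_bind, if_pos hx, h1]), vl_bind]
        refine ⟨(ih hφ (x :: B) ((x, v) :: e) v b n hv).1, fun hn hw h3 => ?_⟩
        refine (ih hφ (x :: B) ((x, v) :: e) v b n hv).2 (by omega) (fun t ht => hw t ?_) h3
        rw [hpr]
        exact List.mem_cons_of_mem _ ht
      · rw [gv_one (r := false) (fun M M' hM => by rw [hpr, tstep_evG, ph4_bind, if_neg hx])]
        refine ⟨fun h3 => absurd h3 (by simp), fun hn hw _ => ?_⟩
        exact absurd (hw (8, x) (by rw [hpr]; exact List.mem_cons_self)) hx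
  | atNom i φ ih => intro h; exact h.elim
  | atVar i φ ih => intro h; exact h.elim

theorem ph5_app (J : List Key) (a : ℕ) (tl : List Tok) (B : List ℕ) (M' : List Bool) :
    ph5 K argX J (3, a) tl B M' =
      if valB M' < K a then ndS J (argX ((3, a) :: tl) (valB M'), B) else fin true := by
  simp [ph5]

/-- **The game for the needed keys.** -/
theorem nd_main (hF : FS 𝔅 E K argX wf) (har : ∀ b : 𝔅.B, 𝔅.ar b < W) (J : List Key) :
    ∀ (ψ : Form 𝔅), NoAt ψ → ∀ (B : List ℕ) (n : ℕ),
      (GV (tstep E K argX wf w) tout W n (ndS J (pr ψ, B)) → Need J ψ B) ∧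
      ((pr ψ).length ≤ n → Need J ψ B →
        GV (tstep E K argX wf w) tout W n (ndS J (pr ψ, B))) := by
  intro ψ
  induction ψ with
  | prop i =>
    intro _ B n
    have h := both (E := E) (K := K) (argX := argX) (wf := wf) (w := w) (W := W)
      (s := ndS J (pr (.prop i : Form 𝔅), B)) (P := Need J (.prop i : Form 𝔅) B) (Q := True)
      (l := 1) rfl one_pos (fun n => by
        rw [gv_one (r := true) (fun M M' _ => by simp [pr, tstep_ndS, ph5])]
        simp [Need]) n
    exact ⟨h.1, fun h1 => h.2 (by simpa [pr] using h1) trivial⟩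
  | nom i =>
    intro _ B n
    have h := both (E := E) (K := K) (argX := argX) (wf := wf) (w := w) (W := W)
      (s := ndS J (pr (.nom i : Form 𝔅), B)) (P := Need J (.nom i : Form 𝔅) B) (Q := True)
      (l := 1) rfl one_pos (fun n => by
        rw [gv_one (r := true) (fun M M' _ => by simp [pr, tstep_ndS, ph5])]
        simp [Need]) n
    exact ⟨h.1, fun h1 => h.2 (by simpa [pr] using h1) trivial⟩
  | var x =>
    intro _ B n
    have h := both (E := E) (K := K) (argX := argX) (wf := wf) (w := w) (W := W)
      (s := ndS J (pr (.var x : Form 𝔅), B)) (P := Need J (.var x : Form 𝔅) B) (Q := True)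
      (l := 1) rfl one_pos (fun n => by
        rw [gv_one (r := true) (fun M M' _ => by simp [pr, tstep_ndS, ph5])]
        simp [Need]) n
    exact ⟨h.1, fun h1 => h.2 (by simpa [pr] using h1) trivial⟩
  | app a φ ih =>
    intro hφ B n
    have hpr : pr (.app a φ) = (3, 𝔅.idx a) ::
        ((List.ofFn (fun i => pr (φ i) ++ [((4, (i : ℕ)) : Tok)])).flatten ++ [(5, 0)]) := by
      rw [pr_app]
    have hstep : ∀ M M', tstep E K argX wf w (ndS J (pr (.app a φ), B)) M M' =
        if valB M' < K (𝔅.idx a) then ndS J (argX (pr (.app a φ)) (valB M'), B) else fin true := by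
      intro M M'
      rw [hpr, tstep_ndS, ph5_app]
    cases n with
    | zero =>
      refine ⟨fun h1 => absurd h1 (not_gv_zero _ rfl), fun h1 => ?_⟩
      rw [hpr] at h1
      simp at h1
    | succ n =>
      have hK : K (𝔅.idx a) ≤ W := by rw [(hF.ek a).1]; exact (har a).le
      rw [gv_all' hK (f := fun u => ndS J (argX (pr (.app a φ)) u, B))
        (fun M M' _ => hstep M M')]
      refine ⟨?_, ?_⟩
      · intro h1 i
        have h2 := h1 i (by rw [(hF.ek a).1]; exact i.2)
        rw [hF.ax a φ i] at h2
        exact (ih i (hφ i) B n).1 h2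
      · intro hn h1 u hu
        have hu' : u < 𝔅.ar a := by rw [← (hF.ek a).1]; exact hu
        have h5 : argX (pr (.app a φ)) u = pr (φ ⟨u, hu'⟩) := hF.ax a φ ⟨u, hu'⟩
        rw [h5]
        exact (ih ⟨u, hu'⟩ (hφ _) B n).2 (by have := length_arg a φ ⟨u, hu'⟩; omega) (h1 _)
  | dia φ ih =>
    intro _ B n
    have h := both (E := E) (K := K) (argX := argX) (wf := wf) (w := w) (W := W)
      (s := ndS J (pr (.dia φ : Form 𝔅), B)) (P := Need J (.dia φ : Form 𝔅) B) (Q := True)
      (l := (pr (.dia φ : Form 𝔅)).length) rfl (by simp [pr]) (fun n => by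
        rw [gv_one (r := decide ((pr φ, B) ∈ J)) (fun M M' _ => by simp [pr, tstep_ndS, ph5]),
          decide_eq_true_eq]
        simp [Need]) n
    exact ⟨h.1, fun h1 => h.2 h1 trivial⟩
  | box φ ih =>
    intro _ B n
    have h := both (E := E) (K := K) (argX := argX) (wf := wf) (w := w) (W := W)
      (s := ndS J (pr (.box φ : Form 𝔅), B)) (P := Need J (.box φ : Form 𝔅) B) (Q := True)
      (l := (pr (.box φ : Form 𝔅)).length) rfl (by simp [pr]) (fun n => by
        rw [gv_one (r := decide ((pr φ, B) ∈ J)) (fun M M' _ => by simp [pr, tstep_ndS, ph5]),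
          decide_eq_true_eq]
        simp [Need]) n
    exact ⟨h.1, fun h1 => h.2 h1 trivial⟩
  | bind x φ ih =>
    intro hφ B n
    have hpr : pr (.bind x φ) = (8, x) :: pr φ := by simp [pr]
    have hlen : (pr (.bind x φ)).length = (pr φ).length + 1 := by simp [pr]
    cases n with
    | zero => exact ⟨fun h3 => absurd h3 (not_gv_zero _ rfl), fun h3 => by omega⟩
    | succ n =>
      rw [gv_const' (s' := ndS J (pr φ, x :: B))
        (fun M M' hM => by rw [hpr, tstep_ndS]; simp [ph5])]
      exact ⟨(ih hφ (x :: B) n).1, fun hn h3 => (ih hφ (x :: B) n).2 (by omega) h3⟩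
  | atNom i φ ih => intro h; exact h.elim
  | atVar i φ ih => intro h; exact h.elim

end

/-- **Piece D2.** -/
theorem d2 : D2 := by
  intro 𝔅 E K argX wf hF w W har
  refine ⟨fun r n => gv_fin' r n, ?_, ?_⟩
  · intro c mc hc ψ hψ B v b n hv
    exact ev_main hF har c mc hc ψ hψ B (envc c B) v b n hv
  · intro J ψ hψ B n
    exact nd_main hF har J ψ hψ B n

end Pool.Agent.Helper32.TR
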